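import Pool.Agent.Y645.BU.Final

/-!
# MP_f2f204_lc: a fast smoothed tester for graph bisection exists if and only if `NP ⊆ BPP`
-/

set_option autoImplicit false

namespace Pool.Agent.Results.MP_f2f204_lc.TesterIffNPinBPP

open Pool.Agent.NPC Pool.Agent.Y645.BT

/-- For every rational `0 < ρ < 1 / 8`: there is a smoothed tester for `ρ`-Bisection that runs in
time polynomial in `1 / ε` and `1 / σ` if and only if `NP ⊆ BPP`. The first equivalence is about
testers for all real `ε` and `σ`, the second one about testers for reciprocals of integers only. -/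
theorem result (ρ : ℚ) (h0 : 0 < ρ) (h8 : ρ < 1 / 8) :
    ((∃ A : Alg, A.TestsAll (ρ : ℝ)) ↔ ∀ L : Set (List Bool), InNP L → InBPP L) ∧
    ((∃ A : Alg, A.Tests (ρ : ℝ)) ↔ ∀ L : Set (List Bool), InNP L → InBPP L) :=
  Pool.Agent.Y645.BU.tester_iff h0 h8

end Pool.Agent.Results.MP_f2f204_lc.TesterIffNPinBPP
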